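import Mathlib
import Pool.Agent.MP1bdb59C.HitExt

/-!
# Hilbert sets and finite extensions

The filter form of the modules `HitExt` and `HilbDef` of `Pool.Agent.MP1bdb59C`.
-/

open Polynomial

noncomputable section

open scoped Classical

namespace Pool.Agent.HS36

open Pool.Agent.MP1bdb59C

/-- The filter `𝓕` on the field `k` contains the complements of the finite sets and the sets of
Hilbert: for finitely many polynomials `F_i(X,Y)`, irreducible and separable over `k(X)`, the set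
of the `c` in `k` such that all `F_i(c,Y)` are irreducible. -/
def IsHilbFilter (k : Type*) [Field k] (𝓕 : Filter k) : Prop :=
  𝓕 ≤ Filter.cofinite ∧ ∀ S : Finset (k[X])[X],
    (∀ F ∈ S, Irreducible (F.map (algebraMap k[X] (RatFunc k))) ∧
      (F.map (algebraMap k[X] (RatFunc k))).Separable) →
    {c : k | ∀ F ∈ S, Irreducible (F.map (evalRingHom c))} ∈ 𝓕

/-- The same for polynomials over `k` and specialisations in the subfield `k₀`. -/
def HilbFam (k₀ k : Type*) [Field k₀] [Field k] [Algebra k₀ k] (𝓕 : Filter k₀) : Prop :=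
  𝓕 ≤ Filter.cofinite ∧ ∀ S : Finset (k[X])[X],
    (∀ F ∈ S, Irreducible (F.map (algebraMap k[X] (RatFunc k))) ∧
      (F.map (algebraMap k[X] (RatFunc k))).Separable) →
    {c : k₀ | ∀ F ∈ S, Irreducible (F.map (evalRingHom (algebraMap k₀ k c)))} ∈ 𝓕

theorem hilbFam_of_finite {k₀ k : Type*} [Field k₀] [CharZero k₀] [Field k] [Algebra k₀ k]
    [FiniteDimensional k₀ k] {𝓕 : Filter k₀} (h : IsHilbFilter k₀ 𝓕) : HilbFam k₀ k 𝓕 := by
  have hc0 : CharZero (RatFunc k₀) :=
    charZero_of_injective_algebraMap (algebraMap k₀ (RatFunc k₀)).injective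
  refine ⟨h.1, fun S hS => ?_⟩
  have key : ∀ F : S, ∃ G : k₀[X][X], Irreducible (G.map (algebraMap k₀[X] (RatFunc k₀))) ∧
      (G.map (algebraMap k₀[X] (RatFunc k₀))).Separable ∧
      ∀ c : k₀, (F.1.leadingCoeff).eval (algebraMap k₀ k c) ≠ 0 →
        Irreducible (G.map (evalRingHom c)) →
        Irreducible (F.1.map (evalRingHom (algebraMap k₀ k c))) := by
    rintro ⟨F, hF⟩
    obtain ⟨hirr, -⟩ := hS F hF
    have hF0 : F ≠ 0 := by
      rintro rfl
      rw [Polynomial.map_zero] at hirr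
      exact hirr.ne_zero rfl
    have hlc : F.leadingCoeff ≠ 0 := leadingCoeff_ne_zero.mpr hF0
    obtain ⟨F₁, hF₁m, hF₁n, hF₁⟩ := exists_monic F hF0
    have hirr₁ : Irreducible (F₁.map (algebraMap k[X] (RatFunc k))) := by
      rw [hF₁]
      · exact hirr
      · rwa [Ne, map_eq_zero_iff _ (IsFractionRing.injective k[X] (RatFunc k))]
    have hn : F₁.natDegree ≠ 0 := by
      rw [← hF₁m.natDegree_map (algebraMap k[X] (RatFunc k))]
      exact hirr₁.natDegree_pos.ne'
    have := Fact.mk hirr₁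
    have hdom : IsDomain (AdjoinRoot F₁) := isDomain_adjoinRoot_of_irr (K := RatFunc k) hF₁m hirr₁
    let i1 : Algebra (AdjoinRoot F₁) (AdjoinRoot (F₁.map (algebraMap k[X] (RatFunc k)))) :=
      (lamMap (algebraMap k[X] (RatFunc k)) rfl).toAlgebra
    have i2 : IsFractionRing (AdjoinRoot F₁) (AdjoinRoot (F₁.map (algebraMap k[X] (RatFunc k)))) :=
      isFractionRing_adjoinRoot rfl hF₁m hirr₁ (fun _ => rfl)
    have i3 : Module.Finite k[X] (AdjoinRoot F₁) := (AdjoinRoot.powerBasis' hF₁m).finite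
    let j1 : Algebra k₀[X] k[X] := polAlg k₀ k
    have i4 : Module.Finite k₀[X] k[X] := finite_polAlg
    have i6 : IsScalarTower k₀[X] k[X] (AdjoinRoot F₁) := inferInstance
    have i5 : Module.Finite k₀[X] (AdjoinRoot F₁) := Module.Finite.trans k[X] _
    have i7 : IsScalarTower k₀ k₀[X] k[X] := IsScalarTower.of_algebraMap_eq (fun c => by
      change C (algebraMap k₀ k c) = (C c).map (algebraMap k₀ k)
      rw [map_C])
    have i8 : IsScalarTower k₀ k₀[X] (AdjoinRoot F₁) := inferInstance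
    have i9 : IsScalarTower k₀[X] k[X] (RatFunc k) := inferInstance
    have i10 : IsScalarTower k₀[X] (RatFunc k)
        (AdjoinRoot (F₁.map (algebraMap k[X] (RatFunc k)))) := inferInstance
    have hinjL : Function.Injective
        (algebraMap k₀[X] (AdjoinRoot (F₁.map (algebraMap k[X] (RatFunc k))))) := by
      rw [IsScalarTower.algebraMap_eq k₀[X] (RatFunc k), IsScalarTower.algebraMap_eq k₀[X] k[X]]
      refine (algebraMap (RatFunc k) _).injective.comp
        ((IsFractionRing.injective k[X] (RatFunc k)).comp ?_)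
      exact map_injective _ (algebraMap k₀ k).injective
    let j2 : Algebra (RatFunc k₀) (AdjoinRoot (F₁.map (algebraMap k[X] (RatFunc k)))) :=
      (IsFractionRing.lift (K := RatFunc k₀) hinjL).toAlgebra
    have i11 : IsScalarTower k₀[X] (RatFunc k₀)
        (AdjoinRoot (F₁.map (algebraMap k[X] (RatFunc k)))) :=
      IsScalarTower.of_algebraMap_eq (fun p => (IsFractionRing.lift_algebraMap hinjL p).symm)
    have i12 : IsScalarTower k₀[X] (AdjoinRoot F₁)
        (AdjoinRoot (F₁.map (algebraMap k[X] (RatFunc k)))) := by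
      apply IsScalarTower.of_algebraMap_eq
      intro p
      change AdjoinRoot.of _ (algebraMap k₀[X] (RatFunc k) p) =
        lamMap (algebraMap k[X] (RatFunc k)) rfl (AdjoinRoot.of F₁ (algebraMap k₀[X] k[X] p))
      rw [lamMap_of', ← IsScalarTower.algebraMap_apply]
    have i13 : FiniteDimensional (RatFunc k₀)
        (AdjoinRoot (F₁.map (algebraMap k[X] (RatFunc k)))) :=
      finiteDimensional_of_finite (AdjoinRoot F₁)
    have i14 : Algebra.IsSeparable (RatFunc k₀)
        (AdjoinRoot (F₁.map (algebraMap k[X] (RatFunc k)))) := inferInstance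
    have i15 : IsScalarTower k₀ k₀[X] (AdjoinRoot (F₁.map (algebraMap k[X] (RatFunc k)))) :=
      inferInstance
    obtain ⟨G, g1, g2, g3⟩ := Hilb.base_case k₀ (AdjoinRoot F₁)
      (AdjoinRoot (F₁.map (algebraMap k[X] (RatFunc k))))
    refine ⟨G, g1, g2, fun c hc hG => ?_⟩
    have hmax := isMaximal_span (AdjoinRoot (F₁.map (algebraMap k[X] (RatFunc k)))) (1 : k₀[X])
      (fun a => ⟨0, by rw [pow_zero, one_mul]; exact Algebra.IsIntegral.isIntegral a⟩) (c := c)
      (by rw [eval_one]; exact one_ne_zero) (fun 𝔪 h𝔪 hX => g3 c hG 𝔪 h𝔪 hX)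
    have hw : algebraMap k₀[X] (AdjoinRoot F₁) (X - C c) =
        AdjoinRoot.of F₁ (X - C (algebraMap k₀ k c)) := by
      change AdjoinRoot.of F₁ ((X - C c : k₀[X]).map (algebraMap k₀ k)) = _
      rw [Polynomial.map_sub, map_X, map_C]
    rw [hw] at hmax
    have h1 := (irreducible_map_of_isMaximal (evalRingHom (algebraMap k₀ k c))
      (fun a => ⟨C a, by simp⟩) hF₁m hn (w := X - C (algebraMap k₀ k c)) (by simp) hmax).1
    rw [hF₁ _ _ hc] at h1
    exact h1
  choose G g1 g2 g3 using key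
  have hinf := h.2 (Finset.univ.image G) (by
    intro g hg
    rw [Finset.mem_image] at hg
    obtain ⟨F, -, rfl⟩ := hg
    exact ⟨g1 F, g2 F⟩)
  have hinj : Function.Injective (algebraMap k₀ k) := (algebraMap k₀ k).injective
  have hbad : {c : k₀ | ∃ F ∈ S, F.leadingCoeff.eval (algebraMap k₀ k c) = 0}.Finite := by
    have h1 : {x : k | ∃ F ∈ S, F.leadingCoeff.eval x = 0}.Finite := by
      have h2 : {x : k | ∃ F ∈ S, F.leadingCoeff.eval x = 0} =
          ⋃ F ∈ S, {x : k | F.leadingCoeff.eval x = 0} := by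
        ext x
        simp
      rw [h2]
      refine Set.Finite.biUnion S.finite_toSet fun F hF => ?_
      obtain ⟨hirr, -⟩ := hS F hF
      have hF0 : F ≠ 0 := by
        rintro rfl
        rw [Polynomial.map_zero] at hirr
        exact hirr.ne_zero rfl
      have hlc : F.leadingCoeff ≠ 0 := leadingCoeff_ne_zero.mpr hF0
      refine (F.leadingCoeff.roots.toFinset.finite_toSet).subset fun c hc => ?_
      rw [Finset.mem_coe, Multiset.mem_toFinset, mem_roots hlc]
      exact hc
    exact Set.Finite.preimage (f := algebraMap k₀ k) hinj.injOn h1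
  refine Filter.mem_of_superset (Filter.inter_mem hinf (h.1 hbad.compl_mem_cofinite)) ?_
  rintro c ⟨hc1, hc2⟩ F hF
  refine g3 ⟨F, hF⟩ c ?_ ?_
  · intro h0
    exact hc2 ⟨F, hF, h0⟩
  · exact hc1 _ (Finset.mem_image.mpr ⟨⟨F, hF⟩, Finset.mem_univ _, rfl⟩)


/-- The filter of the sets which contain a set of Hilbert, up to finitely many elements. -/
def hilbFilter (k : Type*) [Field k] : Filter k where
  sets := {T | ∃ S : Finset (k[X])[X], (∀ F ∈ S, Irreducible (F.map (algebraMap k[X] (RatFunc k))) ∧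
    (F.map (algebraMap k[X] (RatFunc k))).Separable) ∧ ∃ B : Set k, B.Finite ∧
      ∀ c : k, c ∉ B → (∀ F ∈ S, Irreducible (F.map (evalRingHom c))) → c ∈ T}
  univ_sets := ⟨∅, by simp, ∅, Set.finite_empty, fun _ _ _ => Set.mem_univ _⟩
  sets_of_superset := by
    rintro T T' ⟨S, hS, B, hB, h⟩ hT
    exact ⟨S, hS, B, hB, fun c hc hF => hT (h c hc hF)⟩
  inter_sets := by
    rintro T T' ⟨S, hS, B, hB, h⟩ ⟨S', hS', B', hB', h'⟩
    refine ⟨S ∪ S', ?_, B ∪ B', hB.union hB', fun c hc hF => ⟨h c (fun hb => hc (Or.inl hb))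
      (fun F hFS => hF F (Finset.mem_union_left _ hFS)), h' c (fun hb => hc (Or.inr hb))
      (fun F hFS => hF F (Finset.mem_union_right _ hFS))⟩⟩
    intro F hF
    rcases Finset.mem_union.mp hF with hF | hF
    · exact hS F hF
    · exact hS' F hF

lemma mem_hilbFilter {k : Type*} [Field k] {T : Set k} : T ∈ hilbFilter k ↔
    ∃ S : Finset (k[X])[X], (∀ F ∈ S, Irreducible (F.map (algebraMap k[X] (RatFunc k))) ∧
      (F.map (algebraMap k[X] (RatFunc k))).Separable) ∧ ∃ B : Set k, B.Finite ∧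
        ∀ c : k, c ∉ B → (∀ F ∈ S, Irreducible (F.map (evalRingHom c))) → c ∈ T := Iff.rfl

lemma isHilbFilter_hilbFilter (k : Type*) [Field k] : IsHilbFilter k (hilbFilter k) := by
  refine ⟨?_, fun S hS => ⟨S, hS, ∅, Set.finite_empty, fun c _ hc => hc⟩⟩
  intro T hT
  exact ⟨∅, by simp, Tᶜ, Filter.mem_cofinite.mp hT, fun c hc _ => not_not.mp hc⟩

section

variable {k₀ k O L : Type*} [Field k₀] [Field k] [Algebra k₀ k] [CommRing O] [IsDomain O] [Field L]
  [Algebra O L] [IsFractionRing O L] [Algebra k[X] O] [Algebra k[X] L] [IsScalarTower k[X] O L]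
  [Algebra k O] [IsScalarTower k k[X] O] [Algebra k L] [IsScalarTower k k[X] L]
  [Algebra (RatFunc k) L] [IsScalarTower k[X] (RatFunc k) L] [FiniteDimensional (RatFunc k) L]
  [Algebra.IsSeparable (RatFunc k) L]

/-- Hilbert specialisation of `O` and of the Kummer extensions of `L`, at elements of `k₀`. -/
theorem hilbert_spec_fam {𝓕 : Filter k₀} (hk : HilbFam k₀ k 𝓕) {ℓ : ℕ} [hp : Fact ℓ.Prime] (hℓ : (ℓ : k) ≠ 0)
    (M : Finset O) (hM : ∀ m ∈ M, ¬ ∃ z : L, algebraMap O L m = z ^ ℓ) (bad : Set k)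
    (hbad : bad.Finite) :
    {c : k₀ | algebraMap k₀ k c ∉ bad ∧ ∀ 𝔪 : Ideal O, 𝔪.IsMaximal →
      algebraMap k[X] O (X - C (algebraMap k₀ k c)) ∈ 𝔪 →
      Module.finrank (RatFunc k) L ≤ Module.finrank k (O ⧸ 𝔪) ∧
        ∀ m ∈ M, ¬ ∃ b : O, m - b ^ ℓ ∈ 𝔪} ∈ 𝓕 := by
  obtain ⟨G₀, h1, h2, h3⟩ := Hilb.base_case k O L
  choose G g1 g2 g3 using fun m : M => Hilb.kummer_case (k := k) hp.out hℓ m.1 (hM m.1 m.2)
  have h := hk.2 (insert G₀ (Finset.univ.image G)) (by
    intro F hF
    rw [Finset.mem_insert, Finset.mem_image] at hF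
    rcases hF with rfl | ⟨m, _, rfl⟩
    · exact ⟨h1, h2⟩
    · exact ⟨g1 m, g2 m⟩)
  have hbad' : (algebraMap k₀ k ⁻¹' bad).Finite :=
    hbad.preimage (algebraMap k₀ k).injective.injOn
  refine Filter.mem_of_superset (Filter.inter_mem h (hk.1 hbad'.compl_mem_cofinite)) ?_
  rintro c ⟨hc, hcb⟩
  refine ⟨hcb, fun 𝔪 h𝔪 hX => ⟨h3 _ (hc G₀ (Finset.mem_insert_self _ _)) 𝔪 h𝔪 hX,
    fun m hm => ?_⟩⟩
  exact g3 ⟨m, hm⟩ _ (hc _ (Finset.mem_insert_of_mem (Finset.mem_image_of_mem _
    (Finset.mem_univ _)))) 𝔪 h𝔪 hX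

end


end Pool.Agent.HS36
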