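import Mathlib
import Pool.Agent.MP1bdb59C.HilbTw
import Pool.Agent.HS36.Fam

/-!
# Twists over function fields: the filter form
-/

open Polynomial IsDedekindDomain

noncomputable section

open scoped Classical WithZero

namespace Pool.Agent.HS36

open Pool.Agent.MP1bdb59C

open Pool.Agent.MP1bdb59 (Sep AbsGal emb resGal Place Completion placeOf TateModule)

universe u v

section Core

variable {k₀ : Type*} {𝓕 : Filter k₀} {k : Type u} {K : Type v} [Field k₀] [Field k] [Algebra k₀ k] [CharZero k]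
  [Field K] [Algebra k K] [Algebra k[X] K] [IsScalarTower k k[X] K] [Algebra (RatFunc k) K]
  [IsScalarTower k[X] (RatFunc k) K] [FiniteDimensional (RatFunc k) K]
  {A : Type*} [CommRing A] [IsDedekindDomain A] [Algebra k[X] A] [Algebra A K]
  [IsFractionRing A K] [IsScalarTower k[X] A K] [Algebra k A] [IsScalarTower k k[X] A]
  [IsScalarTower k A K] {ℓ : ℕ} [hp : Fact ℓ.Prime]

/-- The main theorem, over a Dedekind domain `A` of functions. -/
theorem famTwist_core (hk : HilbFam k₀ k 𝓕) {ζ : k} (hζ : IsPrimitiveRoot ζ ℓ) (s : k[X])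
    (hs : s ≠ 0) (hint : ∀ a : A, ∃ N : ℕ, IsIntegral k[X] (algebraMap k[X] A s ^ N * a))
    {f : A[X]} (hf : f.Monic) (hsep : f.Separable) (hirr : Irreducible (f.map (algebraMap A K)))
    (hcop : ¬ ℓ ∣ f.natDegree)
    (hreg : ∀ x : AdjoinRoot (f.map (algebraMap A K)), IsAlgebraic k x →
      x ∈ Set.range (algebraMap k (AdjoinRoot (f.map (algebraMap A K))))) :
    {c : k₀ | ∀ (d : Aˣ) (j : ℕ), ¬ ℓ ∣ j → ∀ g : K[X], g = (f.map (algebraMap A K)).scaleRoots
        (algebraMap A K d * algebraMap k[X] K (X - C (algebraMap k₀ k c)) ^ j) →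
      (∀ ξ ∈ Sha k ℓ g, ℓ • ξ = 0 → ξ = 0) ∧
      (∀ t : Jac ℓ g K, (∀ σ, act ℓ g K σ t = t) →
        ∃ s : Jac ℓ g K, (∀ σ, act ℓ g K σ s = s) ∧ ℓ • s = t)} ∈ 𝓕 := by
  have hℓ := hp.out
  have i0 := Fact.mk hirr
  have hn : f.natDegree ≠ 0 := by
    rw [← hf.natDegree_map (algebraMap A K)]
    exact hirr.natDegree_pos.ne'
  have hfKm : (f.map (algebraMap A K)).Monic := hf.map _
  have hded : IsDedekindDomain (AdjoinRoot f) := isDedekind_adjoinRoot K hf hsep hirr
  let i1 : Algebra (AdjoinRoot f) (AdjoinRoot (f.map (algebraMap A K))) :=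
    (lamMap (algebraMap A K) rfl).toAlgebra
  have i2 : IsFractionRing (AdjoinRoot f) (AdjoinRoot (f.map (algebraMap A K))) :=
    isFractionRing_adjoinRoot rfl hf hirr (fun _ => rfl)
  have i3 : IsScalarTower A (AdjoinRoot f) (AdjoinRoot (f.map (algebraMap A K))) := by
    apply IsScalarTower.of_algebraMap_eq
    intro a
    change AdjoinRoot.of _ (algebraMap A K a) = lamMap (algebraMap A K) rfl (AdjoinRoot.of f a)
    rw [lamMap_of']
  have i4 : IsScalarTower k[X] (AdjoinRoot f) (AdjoinRoot (f.map (algebraMap A K))) := by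
    apply IsScalarTower.of_algebraMap_eq
    intro q
    change AdjoinRoot.of _ (algebraMap k[X] K q) =
      lamMap (algebraMap A K) rfl (AdjoinRoot.of f (algebraMap k[X] A q))
    rw [lamMap_of', ← IsScalarTower.algebraMap_apply]
  have i5 : IsScalarTower k k[X] (AdjoinRoot f) := inferInstance
  have i6 : IsScalarTower k k[X] (AdjoinRoot (f.map (algebraMap A K))) := inferInstance
  have i7 : IsScalarTower k[X] (RatFunc k) (AdjoinRoot (f.map (algebraMap A K))) := inferInstance
  have i8 : FiniteDimensional K (AdjoinRoot (f.map (algebraMap A K))) :=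
    (AdjoinRoot.powerBasis' hfKm).finite
  have i9 : IsScalarTower (RatFunc k) K (AdjoinRoot (f.map (algebraMap A K))) := inferInstance
  have i10 : FiniteDimensional (RatFunc k) (AdjoinRoot (f.map (algebraMap A K))) :=
    Module.Finite.trans K _
  have i11 : CharZero (RatFunc k) :=
    charZero_of_injective_algebraMap (algebraMap k (RatFunc k)).injective
  have i12 : Algebra.IsSeparable (RatFunc k) (AdjoinRoot (f.map (algebraMap A K))) := inferInstance
  have i13 : IsScalarTower k (AdjoinRoot f) (AdjoinRoot (f.map (algebraMap A K))) := by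
    apply IsScalarTower.of_algebraMap_eq
    intro c
    change AdjoinRoot.of _ (algebraMap k K c) =
      lamMap (algebraMap A K) rfl (AdjoinRoot.of f (algebraMap k A c))
    rw [lamMap_of', ← IsScalarTower.algebraMap_apply]
  have hintO : ∀ a : AdjoinRoot f, ∃ N : ℕ,
      IsIntegral k[X] (algebraMap k[X] (AdjoinRoot f) s ^ N * a) := fun a =>
    exists_pow_mul_isIntegral (algebraMap k[X] A s) isIntegral_algebraMap hint hf hn a
  have hfin := finite_selmer (k := k) (O := AdjoinRoot f)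
    (L := AdjoinRoot (f.map (algebraMap A K))) s hs hintO hreg hζ
  have hkK : ∀ (c : k) (y : K), algebraMap k K c = y ^ ℓ → ∃ b : k, c = b ^ ℓ := by
    intro c y hy
    have h1 : IsAlgebraic k (algebraMap K (AdjoinRoot (f.map (algebraMap A K))) y) := by
      refine IsIntegral.isAlgebraic ⟨X ^ ℓ - C c, monic_X_pow_sub_C _ hℓ.ne_zero, ?_⟩
      rw [eval₂_sub, eval₂_pow, eval₂_X, eval₂_C, ← map_pow, ← hy,
        ← IsScalarTower.algebraMap_apply, sub_self]
    obtain ⟨b, hb⟩ := hreg _ h1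
    refine ⟨b, ?_⟩
    rw [IsScalarTower.algebraMap_apply k K] at hb
    have hb' := (algebraMap K (AdjoinRoot (f.map (algebraMap A K)))).injective hb
    apply (algebraMap k K).injective
    rw [hy, map_pow, hb']
  obtain ⟨M, hM1, hM2⟩ := exists_reps_sel hfin (Algebra.norm K) hcop (fun x hx => by
      rwa [Algebra.norm_eq_zero_iff] at hx) (fun c => by
      rw [IsScalarTower.algebraMap_apply k K, Algebra.norm_algebraMap,
        (AdjoinRoot.powerBasis' hfKm).finrank, AdjoinRoot.powerBasis'_dim, hf.natDegree_map]) hkK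
  have hℓk : (ℓ : k) ≠ 0 := by exact_mod_cast hℓ.ne_zero
  have hbad : {c : k | s.eval c = 0}.Finite := by
    refine s.roots.toFinset.finite_toSet.subset fun c hc => ?_
    rw [Finset.mem_coe, Multiset.mem_toFinset, mem_roots hs]
    exact hc
  have hinf := hilbert_spec_fam (L := AdjoinRoot (f.map (algebraMap A K))) hk hℓk M hM1 _ hbad
  refine Filter.mem_of_superset hinf ?_
  rintro c ⟨hcs, hc⟩ d j hj g hg
  have hcs' : s.eval (algebraMap k₀ k c) ≠ 0 := hcs
  have hmax := isMaximal_span (AdjoinRoot (f.map (algebraMap A K))) s hintO hcs'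
    (fun 𝔪 h𝔪 hX => (hc 𝔪 h𝔪 hX).1)
  have hMmod := (hc _ hmax (Ideal.mem_span_singleton_self _)).2
  have hinjK : Function.Injective (algebraMap k[X] K) := by
    rw [IsScalarTower.algebraMap_eq k[X] (RatFunc k) K]
    exact (algebraMap (RatFunc k) K).injective.comp (IsFractionRing.injective k[X] (RatFunc k))
  have hw0 : algebraMap k[X] A (X - C (algebraMap k₀ k c)) ≠ 0 := by
    intro h0
    apply X_sub_C_ne_zero (algebraMap k₀ k c)
    apply hinjK
    rw [IsScalarTower.algebraMap_apply k[X] A K, h0, map_zero, map_zero]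
  refine twist_at (f := f) (fun _ => rfl) hf hsep hcop hζ hj hw0 d.mul_inv (g := g) ?_ M hM2 hmax
    hMmod
  rw [hg, IsScalarTower.algebraMap_apply k[X] A K, map_mul, map_pow]

theorem famTwist_core'
    (hk : HilbFam k₀ k 𝓕) {ζ : k} (hζ : IsPrimitiveRoot ζ ℓ) (s : k[X])
    (hs : s ≠ 0) (hint : ∀ a : A, ∃ N : ℕ, IsIntegral k[X] (algebraMap k[X] A s ^ N * a))
    {f : A[X]} (hf : f.Monic) (hsep : f.Separable) (hirr : Irreducible (f.map (algebraMap A K)))
    (hcop : ¬ ℓ ∣ f.natDegree)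
    (hreg : ∀ x : AdjoinRoot (f.map (algebraMap A K)), IsAlgebraic k x →
      x ∈ Set.range (algebraMap k (AdjoinRoot (f.map (algebraMap A K)))))
    {G : Subgroup Kˣ} (hG : ∀ γ ∈ G, ∃ d d' : A, d * d' = 1 ∧ algebraMap A K d = γ) :
    {c : k₀ | ∀ (u : kˣ), ∀ γ ∈ G, ∀ j : ℕ, ¬ ℓ ∣ j → ∀ g : K[X],
      g = (f.map (algebraMap A K)).scaleRoots
        (algebraMap k K u * γ * algebraMap k[X] K (X - C (algebraMap k₀ k c)) ^ j) →
      (∀ ξ ∈ Sha k ℓ g, ℓ • ξ = 0 → ξ = 0) ∧
      (∀ t : Jac ℓ g K, (∀ σ, act ℓ g K σ t = t) →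
        ∃ s : Jac ℓ g K, (∀ σ, act ℓ g K σ s = s) ∧ ℓ • s = t)} ∈ 𝓕 := by
  refine Filter.mem_of_superset
    (famTwist_core (A := A) hk hζ s hs hint hf hsep hirr hcop hreg) ?_
  intro c hc u γ hγ j hj g hg
  obtain ⟨d, d', hd, hdγ⟩ := hG γ hγ
  refine hc (Units.map (algebraMap k A : k →* A) u * ⟨d, d', hd, by rw [mul_comm, hd]⟩) j hj g ?_
  have h1 : algebraMap A K ((Units.map (algebraMap k A : k →* A) u *
      ⟨d, d', hd, by rw [mul_comm, hd]⟩ : Aˣ) : A) = algebraMap k K u * γ := by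
    rw [Units.val_mul, map_mul, Units.coe_map, MonoidHom.coe_coe,
      ← IsScalarTower.algebraMap_apply, ← hdγ]
  rw [h1]
  exact hg

end Core

end Pool.Agent.HS36
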