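import Mathlib
import Pool.Agent.MP1bdb59C.HilbAll
import Pool.Agent.HS36.Fin

/-!
# Twists over function fields: the filter form, for every prime
-/

open Polynomial IsDedekindDomain

noncomputable section

open scoped Classical WithZero

namespace Pool.Agent.HS36

open Pool.Agent.MP1bdb59C

open Pool.Agent.MP1bdb59 (Sep AbsGal emb resGal Place Completion placeOf TateModule)

universe u v

section

variable {k : Type u} {K : Type v} [Field k] [CharZero k] [Field K] [Algebra k K]
  {ℓ : ℕ} [hp : Fact ℓ.Prime]

/-- **Twists over a function field over a Hilbertian field.** -/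
theorem famTwist_all {𝓕 : Filter k} (hk : IsHilbFilter k 𝓕) {h : K}
    (htr : Transcendental k h) [FiniteDimensional (IntermediateField.adjoin k {h}) K]
    {f : K[X]} (hf : f.Monic) (hirr : Irreducible f) (hcop : ¬ ℓ ∣ f.natDegree)
    (hreg : ∀ x : AdjoinRoot f, IsAlgebraic k x → x ∈ Set.range (algebraMap k (AdjoinRoot f)))
    {G : Subgroup Kˣ} (hG : G.FG) :
    {c : k | ∀ (u : kˣ), ∀ γ ∈ G, ∀ j : ℕ, ¬ ℓ ∣ j → ∀ g : K[X],
      g = f.scaleRoots (algebraMap k K u * γ * (h - algebraMap k K c) ^ j) →
      (∀ ξ ∈ Sha k ℓ g, ℓ • ξ = 0 → ξ = 0) ∧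
      (∀ t : Jac ℓ g K, (∀ σ, act ℓ g K σ t = t) →
        ∃ s : Jac ℓ g K, (∀ σ, act ℓ g K σ s = s) ∧ ℓ • s = t)} ∈ 𝓕 := by
  have hℓ := hp.out
  have hc2 : CharZero K := charZero_of_injective_algebraMap (algebraMap k K).injective
  have hne : NeZero (ℓ : K) := ⟨by exact_mod_cast hℓ.ne_zero⟩
  have hne' : NeZero ℓ := ⟨hℓ.ne_zero⟩
  let K' := CyclotomicField ℓ K
  have c1 : IsCyclotomicExtension {ℓ} K K' := CyclotomicField.isCyclotomicExtension ℓ K
  have i1 : FiniteDimensional K K' := IsCyclotomicExtension.finiteDimensional {ℓ} K K'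
  have i2 : CharZero K' := charZero_of_injective_algebraMap (algebraMap K K').injective
  have i3 : Algebra.IsSeparable K K' := inferInstance
  have i5 : IsScalarTower k K K' := inferInstance
  set ζ : K' := IsCyclotomicExtension.zeta ℓ K K' with hζ
  have hζs : IsPrimitiveRoot ζ ℓ := IsCyclotomicExtension.zeta_spec ℓ K K'
  have hζint : IsIntegral k ζ := by
    refine ⟨X ^ ℓ - 1, monic_X_pow_sub_C 1 hℓ.ne_zero, ?_⟩
    rw [eval₂_sub, eval₂_pow, eval₂_X, eval₂_one, hζs.pow_eq_one, sub_self]
  have htop : IntermediateField.adjoin K {ζ} = ⊤ := by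
    apply IntermediateField.adjoin_eq_top_of_algebra
    exact IsCyclotomicExtension.adjoin_primitive_root_eq_top hζs
  have hregK := closed_base hirr hreg
  have hd : ¬ ℓ ∣ Module.finrank K K' := by
    have h1 : Module.finrank K K' = (minpoly K ζ).natDegree := by
      have h1 : Module.finrank K (IntermediateField.adjoin K {ζ}) = (minpoly K ζ).natDegree :=
        IntermediateField.adjoin.finrank hζint.tower_top
      rwa [htop, IntermediateField.finrank_top'] at h1
    have h2 : minpoly K ζ ∣ cyclotomic ℓ K := by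
      apply minpoly.dvd
      rw [← eval_map_algebraMap, map_cyclotomic]
      exact (isRoot_cyclotomic_iff.mpr hζs)
    have h3 := natDegree_le_of_dvd h2 (cyclotomic_ne_zero ℓ K)
    rw [natDegree_cyclotomic, Nat.totient_prime hℓ] at h3
    have h4 : 0 < (minpoly K ζ).natDegree := minpoly.natDegree_pos hζint.tower_top
    rw [h1]
    intro h5
    have h6 := Nat.le_of_dvd h4 h5
    have h7 := hℓ.one_lt
    omega
  have i6 : FiniteDimensional k (IntermediateField.adjoin k {ζ}) :=
    IntermediateField.adjoin.finiteDimensional hζint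
  have hover : HilbFam k (IntermediateField.adjoin k {ζ}) 𝓕 := hilbFam_of_finite hk
  have hζ' : IsPrimitiveRoot (IntermediateField.AdjoinSimple.gen k ζ) ℓ := by
    apply IsPrimitiveRoot.of_map_of_injective
      (f := algebraMap (IntermediateField.adjoin k {ζ}) K') _ (RingHom.injective _)
    rw [IntermediateField.AdjoinSimple.algebraMap_gen]
    exact hζs
  have htr' : Transcendental (IntermediateField.adjoin k {ζ}) (algebraMap K K' h) := by
    have h1 : Transcendental k (algebraMap K K' h) :=
      (transcendental_algebraMap_iff (algebraMap K K').injective).mpr htr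
    exact h1.extendScalars _
  have i7 : FiniteDimensional (IntermediateField.adjoin (IntermediateField.adjoin k {ζ})
      {algebraMap K K' h}) K' := finite_adjoin_ext (k := k) h
  have hirr' := irreducible_ext hζint htop hf hirr hreg
  have i8 := Fact.mk hirr'
  have hmain := famTwist (k₀ := k) (k := IntermediateField.adjoin k {ζ}) (K := K') (ℓ := ℓ)
    hover hζ' htr' (hf.map (algebraMap K K')) hirr' (by rwa [hf.natDegree_map])
    (closed_ext hζint htop hf hirr hreg) (subgroup_fg_map hG (Units.map (algebraMap K K' : K →* K')))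
  refine Filter.mem_of_superset hmain ?_
  intro c hc u γ hγ j hj g hg
  obtain ⟨h1, h2⟩ := hc (Units.map (algebraMap k (IntermediateField.adjoin k {ζ}) : k →* _) u)
    (Units.map (algebraMap K K' : K →* K') γ) (Subgroup.mem_map_of_mem _ hγ) j hj
    (g.map (algebraMap K K')) (by
      rw [hg, map_scaleRoots _ _ _ (by rw [hf.leadingCoeff, map_one]; exact one_ne_zero), map_mul,
        map_mul, map_pow, map_sub]
      rfl)
  exact descend_baseChange (k' := IntermediateField.adjoin k {ζ}) hd g h1 h2

end

end Pool.Agent.HS36
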